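import Pool.Agent.H998.LT.Defs

set_option autoImplicit false

/-!
# Bounded density of the point set (`S_bdd`)
-/

open MeasureTheory Real

namespace Pool.Agent.H233.LT

open Pool.Agent.H998.LT

noncomputable section

/-- an integer in an open interval of length `L` starting at `c` is `⌈c⌉ + i` with `i < m` -/
theorem int_in (c L : ℝ) (m : ℕ) (hL : L ≤ m) (n : ℤ) (h1 : c < n) (h2 : (n : ℝ) < c + L) :
    ∃ i : ℕ, i < m ∧ n = ⌈c⌉ + i := by
  have h3 : ⌈c⌉ ≤ n := Int.ceil_le.mpr h1.le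
  obtain ⟨i, hi⟩ := Int.le.dest h3
  refine ⟨i, ?_, hi.symm⟩
  have h4 : c ≤ (⌈c⌉ : ℝ) := Int.le_ceil c
  have h5 : (n : ℝ) = (⌈c⌉ : ℝ) + (i : ℝ) := by
    rw [← hi]; push_cast; ring
  have h6 : (i : ℝ) < (m : ℝ) := by linarith
  exact_mod_cast h6

theorem one_le_per (s : Bool) : 1 ≤ per s := by
  unfold per
  cases s
  · simp
  · simp only [if_true]
    exact Real.one_le_sqrt.mpr (by norm_num)

/-- the parametrisation of the candidates near `x` -/
def par (θ σ : ℝ) (w : Row → ℝ) (x : Fin 2 → ℝ) (q : (Bool × Bool) × (Fin 3 × Fin 6)) :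
    Fin 2 → ℝ :=
  let n : ℤ := ⌈(x 1 - off σ q.1.1 - 1) / per q.1.1 - (if q.1.2 then θ else 0)⌉
    + ((q.2.1 : ℕ) : ℤ)
  let r : Row := (q.1.1, q.1.2, n)
  let k : ℤ := ⌈w r * (x 0 - 1)⌉ + ((q.2.2 : ℕ) : ℤ)
  ![(k : ℝ) / w r, hgt θ σ r]

theorem t_bdd : Pool.Agent.H998.LT.S_bdd := by
  intro θ σ w hw1 hw2
  refine ⟨72, fun x => ?_⟩
  have hsub : (Lam (hgt θ σ) w ∩ {y | ∑ i, (y i - x i) ^ 2 < 1}) ⊆
      ((Finset.univ.image (par θ σ w x) : Finset (Fin 2 → ℝ)) : Set (Fin 2 → ℝ)) := by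
    rintro y ⟨⟨⟨⟨s, b, n⟩, k⟩, rfl⟩, hy⟩
    have hy' : ((k : ℝ) / w (s, b, n) - x 0) ^ 2 + (hgt θ σ (s, b, n) - x 1) ^ 2 < 1 := by
      have := hy
      simpa [Fin.sum_univ_two] using this
    have ha : |(k : ℝ) / w (s, b, n) - x 0| < 1 := by
      rw [← sq_lt_one_iff_abs_lt_one]
      nlinarith [sq_nonneg (hgt θ σ (s, b, n) - x 1)]
    have hb : |hgt θ σ (s, b, n) - x 1| < 1 := by
      rw [← sq_lt_one_iff_abs_lt_one]
      nlinarith [sq_nonneg ((k : ℝ) / w (s, b, n) - x 0)]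
    rw [abs_lt] at ha hb
    have hp1 := one_le_per s
    have hp0 : 0 < per s := by linarith
    have hh : hgt θ σ (s, b, n) = per s * ((n : ℝ) + if b then θ else 0) + off σ s := rfl
    rw [hh] at hb
    set t : ℝ := if b then θ else 0 with ht
    obtain ⟨i, hi, hn⟩ := int_in ((x 1 - off σ s - 1) / per s - t) 2 3 (by norm_num) n
      (by
        have h1 : (x 1 - off σ s - 1) / per s < (n : ℝ) + t := by
          rw [div_lt_iff₀ hp0]; nlinarith [hb.1]
        linarith)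
      (by
        have h1 : (n : ℝ) + t < (x 1 - off σ s + 1) / per s := by
          rw [lt_div_iff₀ hp0]; nlinarith [hb.2]
        have h2 : (x 1 - off σ s + 1) / per s = (x 1 - off σ s - 1) / per s + 2 / per s := by
          rw [← add_div]; congr 1; ring
        have h3 : 2 / per s ≤ 2 := by
          rw [div_le_iff₀ hp0]; linarith
        linarith)
    have hw0 : 0 < w (s, b, n) := by linarith [hw2 (s, b, n)]
    obtain ⟨j, hj, hk⟩ := int_in (w (s, b, n) * (x 0 - 1)) (9 / 2) 6 (by norm_num) k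
      (by
        have h1 : x 0 - 1 < (k : ℝ) / w (s, b, n) := by linarith [ha.1]
        rw [lt_div_iff₀ hw0] at h1
        linarith)
      (by
        have h1 : (k : ℝ) / w (s, b, n) < x 0 + 1 := by linarith [ha.2]
        rw [div_lt_iff₀ hw0] at h1
        have := hw1 (s, b, n)
        nlinarith)
    rw [Finset.coe_image]
    refine ⟨((s, b), (⟨i, hi⟩, ⟨j, hj⟩)), by simp, ?_⟩
    unfold par
    simp only
    rw [← ht, ← hn, ← hk]
  calc (Lam (hgt θ σ) w ∩ {y | ∑ i, (y i - x i) ^ 2 < 1}).encard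
      ≤ (((Finset.univ.image (par θ σ w x) : Finset (Fin 2 → ℝ)) : Set (Fin 2 → ℝ))).encard :=
        Set.encard_le_encard hsub
    _ = ((Finset.univ.image (par θ σ w x)).card : ℕ∞) := Set.encard_coe_eq_coe_finsetCard _
    _ ≤ ((72 : ℕ) : ℕ∞) := by
        have h1 : (Finset.univ.image (par θ σ w x)).card ≤ 72 := by
          refine Finset.card_image_le.trans ?_
          simp
        exact_mod_cast h1

end

end Pool.Agent.H233.LT
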